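import Pool.Agent.H922R3.CLR.Main

/-!
# The `C^r` closing lemma in the strong topology for abelian extensions of Anosov diffeomorphisms

Diffeomorphisms of the noncompact manifold `M = 𝕋^d × 𝕋^l × ℝ^m` are given by their lifts to
`V d l m = ℝ^d × ℝ^l × ℝ^m`.
* `IsAbExt r F`: `F` is a lift of a `C^r` diffeomorphism of `M` of the form
  `F (b, θ, y) = (h b, θ + ω b, y + φ b)`, with `h` Hölder conjugate to a hyperbolic automorphism of
  `𝕋^d` (as every Anosov diffeomorphism of `𝕋^d` is).
* `StronglyClosable r F z`: there is a compact set `‖y‖ ≤ R` of `M` such that for all finite `k ≤ r`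
  and all `ε > 0` some `C^r` diffeomorphism `G` which is equal to `F` outside this compact set and
  `C^k` `ε`-close to `F` has `z` as a periodic point. So every neighbourhood of `F` in the strong
  (Whitney) `C^r` topology contains such a `G`.
-/

set_option autoImplicit false

namespace Pool.Agent.Results.MP_1e8d1a_an.AbelianExtStrongClosing

open Pool.Agent.H922R3.CL Pool.Agent.H922R3.CLR

/-- Let `1 ≤ r ≤ ∞` and let `F` be a lift of a `C^r` diffeomorphism of `𝕋^d × 𝕋^l × ℝ^m` which is an
extension of an Anosov diffeomorphism of `𝕋^d` by the abelian group `𝕋^l × ℝ^m`. Every nonwandering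
point of `F`, in particular every recurrent point, becomes periodic after a perturbation which is
arbitrarily small in the strong `C^r` topology, and supported in a fixed compact set. -/
theorem result (d l m : ℕ) (r : ℕ∞) (hr : 1 ≤ r) (F : V d l m ≃ V d l m) (hF : IsAbExt r F)
    (z : V d l m) (hz : ExtNonwand F z) : StronglyClosable r F z :=
  main hr hF hz

end Pool.Agent.Results.MP_1e8d1a_an.AbelianExtStrongClosing
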