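import Pool.Agent.H922R3.CL.G7

/-!
# `C^r` genericity of the density of periodic points for circle diffeomorphisms driven by Anosov maps

`HypTower r F`: `F` is a lift of a `C^r` diffeomorphism of `𝕋^d × 𝕋^e`,
`F (b, x) = (H b, (g_i (b, x_i))_{i < e})`, with increasing `g_i (b, ·)` and with `H` topologically
conjugate to a hyperbolic automorphism of `𝕋^d` (as every Anosov diffeomorphism of `𝕋^d` is). The
space `ℝ^d × ℝ^e` is written `V d e 0`. No domination or other growth condition is imposed.
-/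

set_option autoImplicit false

namespace Pool.Agent.Results.MP_1e8d1a_an.AnosovCircleGeneric

open Pool.Agent.H922R3.CL

/-- For `1 ≤ r ≤ ∞`, in the space of `C^r` diffeomorphisms of `𝕋^d × 𝕋^e` consisting of `e` families
of circle diffeomorphisms driven by a map conjugate to a hyperbolic toral automorphism, there are
sets `U n`, each of them open (even for the uniform distance) and `C^r` dense, such that the periodic
points of every `F` which belongs to all `U n` are dense in the chain recurrent set, and hence in the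
nonwandering set, of `F`. -/
theorem result (d e : ℕ) (r : ℕ∞) (hr : 1 ≤ r) :
    ∃ U : ℕ → Set (V d e 0 ≃ V d e 0),
      (∀ n, ∀ F ∈ U n, HypTower r F → ∃ ε : ℝ, 0 < ε ∧ ∀ G : V d e 0 ≃ V d e 0,
        HypTower r G → C0Near ε F G → G ∈ U n) ∧
      (∀ n (F : V d e 0 ≃ V d e 0), HypTower r F → ∀ k : ℕ, (k : ℕ∞) ≤ r → ∀ ε : ℝ, 0 < ε →
        ∃ G ∈ U n, HypTower r G ∧ CkNear k ε F G) ∧
      ∀ F : V d e 0 ≃ V d e 0, HypTower r F → (∀ n, F ∈ U n) →
        ∀ z, IsChainRec (ZV d e 0) F z → z ∈ closure {y | IsPer (ZV d e 0) F y} := by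
  refine ⟨fun n => G.Good r (1 / (n + 1 : ℝ)), ?_, ?_, ?_⟩
  · intro n F hF _
    obtain ⟨ε, hε, h⟩ := G.good_open hF
    exact ⟨ε, hε, h⟩
  · intro n F hF k hk ε hε
    exact G.good_dense hr (by positivity) hF hk hε
  · intro F hF h z hz
    rw [Metric.mem_closure_iff]
    intro η hη
    obtain ⟨n, hn⟩ := exists_nat_one_div_lt hη
    obtain ⟨ε, hε, h1⟩ := h n
    obtain ⟨y, hy, hyz⟩ := h1 F hF (G.C0Near.refl hε F) z hz
    exact ⟨y, hy, by rw [dist_comm]; exact hyz.trans hn⟩

end Pool.Agent.Results.MP_1e8d1a_an.AnosovCircleGeneric
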