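import Pool.Agent.H922R3.CL.Circ
import Pool.Agent.H922R3.CL.Hyp

/-!
# The `C^r` chain closing lemma for towers of circle and torus extensions of Anosov diffeomorphisms

Diffeomorphisms of the torus `𝕋^d × 𝕋^e × 𝕋^m` are given by their lifts to
`V d e m = ℝ^d × ℝ^e × ℝ^m`. `IsTower r H F`: `F` is a lift of a `C^r` diffeomorphism and
`F (b, x, y) = (H b, (g_i (b, x_i))_{i < e}, (y_i + φ_i (b, x, y_0, …, y_{i-1}))_{i < m})`
with increasing `g_i (b, ·)`.
-/

set_option autoImplicit false

namespace Pool.Agent.Results.MP_1e8d1a_an.AnosovTowersClosing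

open Pool.Agent.H922R3.CL

/-- Let `F` be a lift of a `C^r` diffeomorphism of `𝕋^d × 𝕋^e × 𝕋^m` which is a tower over the map
`H` of `𝕋^d`: the `𝕋^e`-component consists of `e` families of orientation preserving circle
diffeomorphisms driven by `H`, on which no domination or any other growth condition is imposed, and
the `𝕋^m`-component is a tower of `m` circle extensions by translations. Suppose that `H` is
topologically conjugate to a hyperbolic automorphism of `𝕋^d` (as every Anosov diffeomorphism of
`𝕋^d` is) or, more generally, that `H` has the periodic shadowing property. Then every chain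
recurrent point `z` of `F` becomes periodic after an arbitrarily `C^r`-small perturbation
`G = F (· - w) + u` of `F` by translations, which is again a tower of the same kind. -/
theorem result (d e m : ℕ) (r : ℕ∞) (H : (Fin d → ℝ) → (Fin d → ℝ)) (F : V d e m ≃ V d e m)
    (hF : IsTower r H F) (hH : ConjHyp (Zn d) H ∨ PerShadow (Zn d) H) (z : V d e m)
    (hz : IsChainRec (ZV d e m) F z) (k : ℕ) (hk : (k : ℕ∞) ≤ r) (ε : ℝ) (hε : 0 < ε) :
    ∃ (u w : V d e m) (G : V d e m ≃ V d e m), ‖u‖ < ε ∧ ‖w‖ < ε ∧ (∀ x, G x = F (x - w) + u) ∧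
      IsTower r (fun b => H (b - w.1) + u.1) G ∧
      (∀ j ≤ k, ∀ x, ‖iteratedFDeriv ℝ j (fun x => G x - F x) x‖ < ε) ∧
      IsPer (ZV d e m) G z :=
  main (hH.elim (perShadow_of_conj (Zn_near d)) id) hF z hz hk hε

end Pool.Agent.Results.MP_1e8d1a_an.AnosovTowersClosing
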