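import Pool.Agent.H922R3.CL.MixB

/-!
# The `C^r` closing lemma for circle diffeomorphisms driven by mixed systems

Diffeomorphisms of the torus `𝕋^d × 𝕋^l × 𝕋^s × 𝕋^e × 𝕋^m` are given by their lifts to
`V d l s × ℝ^e × ℝ^m`, `V d l s = ℝ^d × ℝ^l × ℝ^s`.
* `IsMixedBase H`: `H (b, θ, x) = (h b, θ + ω b, (c_i x_i)_i)` with `h` Hölder conjugate to a
  hyperbolic toral automorphism (as every Anosov diffeomorphism of `𝕋^d` is), `ω` Lipschitz, `c_i`
  circle homeomorphisms conjugate to rotations (by Denjoy's theorem, for instance, orientation
  preserving `C²` diffeomorphisms with irrational rotation number).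
* `MixTower r H F` (`IsTowerB` for `B = V d l s`): `F` is a lift of a `C^r` diffeomorphism and
  `F (b, x, y) = (H b, (g_i (b, x_i))_{i < e}, (y_i + φ_i (b, x, y_0, …, y_{i-1}))_{i < m})`
  with increasing `g_i (b, ·)`.
-/

set_option autoImplicit false

namespace Pool.Agent.Results.MP_1e8d1a_an.MixedTowersClosing

open Pool.Agent.H922R3.CL

/-- Let `F` be a lift of a `C^r` diffeomorphism which is a tower over a mixed base map `H`: the base
is the product of circle homeomorphisms conjugate to rotations with an isometric toral extension of
an Anosov diffeomorphism; `F` consists of `e` families of orientation preserving circle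
diffeomorphisms driven by `H`, without any domination, and of a tower of `m` circle extensions by
translations. Then every nonwandering point `z` of `F` becomes periodic after an arbitrarily
`C^r`-small perturbation `G = F (· - w) + u` of `F` by translations. -/
theorem result (d l s e m : ℕ) (r : ℕ∞) (H : V d l s → V d l s) (hH : IsMixedBase H)
    (F : VM d l s e m ≃ VM d l s e m) (hF : MixTower r H F) (z : VM d l s e m)
    (hz : MixNonwand F z) (k : ℕ) (hk : (k : ℕ∞) ≤ r) (ε : ℝ) (hε : 0 < ε) :
    MixClosable r H F z k ε :=
  B.main (ZV_near d l s) (B.mixed_clos hH) hF z hz hk hε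

end Pool.Agent.Results.MP_1e8d1a_an.MixedTowersClosing
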